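import Pool.Agent.Helper89.TT.Basic

set_option autoImplicit false

open Finset

namespace Pool.Agent.Helper89.TT

/-- numbers `x` with `u + x` and `± (u - x)` squares up to factors `≤ S`, `u` fixed -/
theorem diff_fib {e D : ℝ} (_hD : 1 ≤ D) {N : ℕ} (hN : 1 ≤ N)
    (hC : ∀ a b c : ℤ, |a| ≤ (256 : ℕ) * (N : ℤ) ^ 256 → |b| ≤ (256 : ℕ) * (N : ℤ) ^ 256 →
      |c| ≤ (256 : ℕ) * (N : ℤ) ^ 256 → a ≠ 0 → b ^ 2 - 4 * a * c ≠ 0 → ∀ S : Finset ℕ,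
      (∀ x ∈ S, x ≤ 256 * N ^ 256 ∧ IsSquare (a * (x : ℤ) ^ 2 + b * (x : ℤ) + c)) →
      (S.card : ℝ) ≤ D * (N : ℝ) ^ e)
    {δ : ℤ} (hδ : δ = 1 ∨ δ = -1) {S u : ℕ} (hS : S ≤ 16 * N ^ 3) (hu : 1 ≤ u) (huN : u ≤ N)
    (X : Finset ℕ) (hX : ∀ x ∈ X, x ≤ 2 * N ∧ ∃ s P s' Q : ℕ, 1 ≤ s ∧ s ≤ S ∧ 1 ≤ s' ∧ s' ≤ S ∧
      u + x = s * P ^ 2 ∧ (u : ℤ) - x = δ * (s' * Q ^ 2)) :
    (X.card : ℝ) ≤ (S : ℝ) ^ 2 * (D * (N : ℝ) ^ e) := by
  classical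
  have hδ2 : δ * δ = 1 := by
    rcases hδ with h | h <;> rw [h] <;> norm_num
  have hδa : |δ| = 1 := by
    rcases hδ with h | h <;> rw [h] <;> norm_num
  have hN1 : (1 : ℤ) ≤ N := by exact_mod_cast hN
  have hpow : ∀ k : ℕ, k ≤ 256 → (N : ℤ) ^ k ≤ (N : ℤ) ^ 256 := fun k hk =>
    pow_le_pow_right₀ hN1 hk
  have hsub : X ⊆ (Finset.Icc 1 S ×ˢ Finset.Icc 1 S).biUnion (fun p => X.filter (fun x =>
      ∃ P Q : ℕ, u + x = p.1 * P ^ 2 ∧ (u : ℤ) - x = δ * (p.2 * Q ^ 2))) := by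
    intro x hx
    obtain ⟨_, s, P, s', Q, a1, a2, a3, a4, a5, a6⟩ := hX x hx
    refine Finset.mem_biUnion.2 ⟨(s, s'), ?_, Finset.mem_filter.2 ⟨hx, P, Q, a5, a6⟩⟩
    rw [Finset.mem_product, Finset.mem_Icc, Finset.mem_Icc]
    exact ⟨⟨a1, a2⟩, a3, a4⟩
  have hc := (Finset.card_le_card hsub).trans Finset.card_biUnion_le
  have hc' : (X.card : ℝ) ≤ ∑ p ∈ Finset.Icc 1 S ×ˢ Finset.Icc 1 S,
      ((X.filter (fun x => ∃ P Q : ℕ, u + x = p.1 * P ^ 2 ∧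
        (u : ℤ) - x = δ * (p.2 * Q ^ 2))).card : ℝ) := by
    exact_mod_cast hc
  refine hc'.trans ((Finset.sum_le_sum (g := fun _ => D * (N : ℝ) ^ e) ?_).trans ?_)
  swap
  · rw [Finset.sum_const, Finset.card_product, Nat.card_Icc, Nat.add_sub_cancel, nsmul_eq_mul]
    push_cast
    rw [sq]
  intro p hp
  rw [Finset.mem_product, Finset.mem_Icc, Finset.mem_Icc] at hp
  obtain ⟨⟨p1, p2⟩, p3, p4⟩ := hp
  have hf : ∀ x P : ℕ, u + x = p.1 * P ^ 2 → Nat.sqrt ((u + x) / p.1) = P := by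
    intro x P h
    rw [h, Nat.mul_div_cancel_left _ (by omega), Nat.sqrt_eq']
  refine card_le_of_inj _ (fun x => Nat.sqrt ((u + x) / p.1)) _ ?_ ?_
  · intro x hx y hy hxy
    obtain ⟨_, P, Q, a1, _⟩ := Finset.mem_filter.1 hx
    obtain ⟨_, P', Q', b1, _⟩ := Finset.mem_filter.1 hy
    rw [hf x P a1, hf y P' b1] at hxy
    rw [← hxy] at b1
    omega
  · have q1 : (1 : ℤ) ≤ p.1 := by exact_mod_cast p1
    have q3 : (1 : ℤ) ≤ p.2 := by exact_mod_cast p3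
    have q2 : (p.1 : ℤ) ≤ 16 * (N : ℤ) ^ 3 := by exact_mod_cast p2.trans hS
    have q4 : (p.2 : ℤ) ≤ 16 * (N : ℤ) ^ 3 := by exact_mod_cast p4.trans hS
    have q5 : (1 : ℤ) ≤ u := by exact_mod_cast hu
    have q6 : (u : ℤ) ≤ N := by exact_mod_cast huN
    refine hC (-(δ * p.1 * p.2)) 0 (2 * δ * u * p.2) ?_ ?_ ?_ ?_ ?_ _ ?_
    · rw [abs_neg, abs_mul, abs_mul, hδa, one_mul, abs_of_nonneg (by omega),
        abs_of_nonneg (by omega)]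
      have h1 : (p.1 : ℤ) * p.2 ≤ (16 * (N : ℤ) ^ 3) * (16 * (N : ℤ) ^ 3) :=
        mul_le_mul q2 q4 (by omega) (by positivity)
      have h2 := hpow 6 (by norm_num)
      push_cast
      calc (p.1 : ℤ) * p.2 ≤ (16 * (N : ℤ) ^ 3) * (16 * (N : ℤ) ^ 3) := h1
        _ = 256 * (N : ℤ) ^ 6 := by ring
        _ ≤ 256 * (N : ℤ) ^ 256 := by linarith
    · rw [abs_zero]
      positivity
    · rw [abs_mul, abs_mul, abs_mul, hδa, abs_of_nonneg (by omega : (0 : ℤ) ≤ (u : ℤ)),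
        abs_of_nonneg (by omega : (0 : ℤ) ≤ (p.2 : ℤ))]
      have h1 : (u : ℤ) * p.2 ≤ (N : ℤ) * (16 * (N : ℤ) ^ 3) :=
        mul_le_mul q6 q4 (by omega) (by positivity)
      have h2 := hpow 4 (by norm_num)
      have h3 : |(2 : ℤ)| = 2 := by norm_num
      rw [h3]
      push_cast
      calc 2 * 1 * (u : ℤ) * p.2 = 2 * ((u : ℤ) * p.2) := by ring
        _ ≤ 2 * ((N : ℤ) * (16 * (N : ℤ) ^ 3)) := by linarith
        _ = 32 * (N : ℤ) ^ 4 := by ring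
        _ ≤ 256 * (N : ℤ) ^ 4 := by
            have : (0 : ℤ) ≤ (N : ℤ) ^ 4 := by positivity
            linarith
        _ ≤ 256 * (N : ℤ) ^ 256 := by linarith
    · intro h
      have h1 : δ * p.1 * p.2 = 0 := by linarith
      have h2 : (p.1 : ℤ) * p.2 = 0 := by
        have h3 : δ * (δ * p.1 * p.2) = 0 := by rw [h1, mul_zero]
        have h4 : δ * (δ * p.1 * p.2) = (δ * δ) * (p.1 * p.2) := by ring
        rw [h4, hδ2, one_mul] at h3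
        exact h3
      have h3 : (0 : ℤ) < (p.1 : ℤ) * p.2 := mul_pos (by omega) (by omega)
      omega
    · have h1 : (0 : ℤ) ^ 2 - 4 * (-(δ * p.1 * p.2)) * (2 * δ * u * p.2) =
          8 * (δ * δ) * (p.1 * (p.2 * p.2) * u) := by ring
      rw [h1, hδ2]
      have h2 : (0 : ℤ) < (p.1 : ℤ) * (p.2 * p.2) * u :=
        mul_pos (mul_pos (by omega) (mul_pos (by omega) (by omega))) (by omega)
      omega
    · intro y hy
      obtain ⟨x, hx, rfl⟩ := Finset.mem_image.1 hy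
      obtain ⟨hx0, P, Q, a1, a2⟩ := Finset.mem_filter.1 hx
      rw [hf x P a1]
      have hx2 := (hX x hx0).1
      constructor
      · have h1 : P ≤ P ^ 2 := Nat.le_self_pow (by norm_num) P
        have h2 : 1 * P ^ 2 ≤ p.1 * P ^ 2 := Nat.mul_le_mul_right _ p1
        have h3 : N ^ 1 ≤ N ^ 256 := Nat.pow_le_pow_right hN (by norm_num)
        rw [pow_one] at h3
        omega
      · refine ⟨(p.2 : ℤ) * Q, ?_⟩
        have b1 : (u : ℤ) + x = p.1 * (P : ℤ) ^ 2 := by exact_mod_cast a1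
        have b2 : 2 * (u : ℤ) - p.1 * (P : ℤ) ^ 2 = δ * (p.2 * (Q : ℤ) ^ 2) := by
          rw [← b1, ← a2]
          ring
        have b3 : -(δ * p.1 * p.2) * (P : ℤ) ^ 2 + 0 * (P : ℤ) + 2 * δ * u * p.2 =
            δ * p.2 * (2 * (u : ℤ) - p.1 * (P : ℤ) ^ 2) := by ring
        rw [b3, b2]
        have b4 : δ * p.2 * (δ * (p.2 * (Q : ℤ) ^ 2)) = (δ * δ) * (p.2 * Q * (p.2 * Q)) := by
          ring
        rw [b4, hδ2, one_mul]

/-- pairs with product `< Y` and `≤ N` -/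
theorem diff_pairs {e C : ℝ} (hC : 1 ≤ C) {N Y : ℕ} (hN : 1 ≤ N)
    (hD : ∀ n : ℕ, 1 ≤ n → n ≤ 1 * N ^ 1 → (n.divisors.card : ℝ) ≤ C * (N : ℝ) ^ e)
    (T : Finset (ℕ × ℕ)) (hT : ∀ p ∈ T, 1 ≤ p.1 ∧ 1 ≤ p.2 ∧ p.1 * p.2 < Y ∧ p.1 * p.2 ≤ N) :
    (T.card : ℝ) ≤ Y * (C * (N : ℝ) ^ e) := by
  classical
  have hN0 : (0 : ℝ) < N := by exact_mod_cast hN
  refine fib_le T (fun p => p.1 * p.2) Y (C * (N : ℝ) ^ e) ?_ (by positivity) ?_
  · refine card_le_top Y _ fun q hq => ?_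
    obtain ⟨p, hp, rfl⟩ := Finset.mem_image.1 hq
    obtain ⟨h1, h2, h3, _⟩ := hT p hp
    exact ⟨Nat.mul_pos h1 h2, h3.le⟩
  · intro d hd
    obtain ⟨p, hp, rfl⟩ := Finset.mem_image.1 hd
    obtain ⟨h1, h2, h3, h4⟩ := hT p hp
    have hpos : 0 < p.1 * p.2 := Nat.mul_pos h1 h2
    refine card_le_of_inj _ (fun q : ℕ × ℕ => q.1) _ ?_ ?_
    · intro x hx y hy hxy
      obtain ⟨x1, x2⟩ := Finset.mem_filter.1 hx
      obtain ⟨y1, y2⟩ := Finset.mem_filter.1 hy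
      refine Prod.ext hxy ?_
      rw [← x2, hxy] at y2
      exact (Nat.eq_of_mul_eq_mul_left (hT y y1).1 y2).symm
    · refine le_trans ?_ (hD (p.1 * p.2) hpos (by rw [one_mul, pow_one]; exact h4))
      have hsub : (T.filter (fun x : ℕ × ℕ => x.1 * x.2 = p.1 * p.2)).image
          (fun q : ℕ × ℕ => q.1) ⊆ (p.1 * p.2).divisors := by
        intro q hq
        obtain ⟨x, hx, rfl⟩ := Finset.mem_image.1 hq
        rw [Nat.mem_divisors]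
        exact ⟨⟨_, (Finset.mem_filter.1 hx).2.symm⟩, hpos.ne'⟩
      exact_mod_cast Finset.card_le_card hsub

/-- DIFF: few pairs of neighbours that are close to each other -/
theorem st_DIFF (h1 : ST_SQ2) (h2 : ST_DV) (h3 : ST_CON) : ST_DIFF := by
  classical
  intro ε hε
  obtain ⟨C, hC, hDV⟩ := h2 (ε / 3) (by positivity) 1
  obtain ⟨D, hD, hCON⟩ := h3 (ε / 3) (by positivity) 256
  refine ⟨65536 * C * D ^ 2, ?_, ?_⟩
  · have h4 : (1 : ℝ) ≤ D ^ 2 := one_le_pow₀ hD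
    have h5 : (1 : ℝ) ≤ C * D ^ 2 := one_le_mul_of_one_le_of_one_le hC h4
    linarith
  intro N K Y hN hK hKN S hS
  have hN0 : (0 : ℝ) < N := by exact_mod_cast hN
  have key : ∀ t ∈ S, ∃ q : ℕ × ℕ × ℕ × ℕ, ∃ c₁ c₂ : ℕ, KD K q.1 q.2.1 q.2.2.1 q.2.2.2 ∧
      t.1 ^ 2 + t.2.1 ^ 2 = c₁ ^ 2 ∧ t.2.1 + t.2.2 = q.1 * q.2.2.1 ∧
      t.2.1 = t.2.2 + q.2.1 * q.2.2.2 ∧ c₁ + c₂ = q.2.1 * q.2.2.1 ∧
      c₁ = c₂ + q.1 * q.2.2.2 := by
    intro t ht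
    obtain ⟨t1, t2, t3, t4, t5, t6, ⟨c₁, t7⟩, ⟨c₂, t8⟩, t9, t10⟩ := hS t ht
    obtain ⟨m, l, h, h', k1, k2, k3, k4, k5⟩ := h1 K t.1 t.2.1 t.2.2 c₁ c₂ t1 t3 t4
      (by rw [t7]; ring) (by rw [t8]; ring) t9 t10
    exact ⟨(m, l, h, h'), c₁, c₂, k1, by rw [t7]; ring, k2, k3, k4, k5⟩
  choose! F hF using key
  have hinj : ∀ x ∈ S, ∀ y ∈ S, F x = F y → x = y := by
    intro x hx y hy hxy
    obtain ⟨c₁, c₂, _, a1, a2, a3, a4, a5⟩ := hF x hx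
    obtain ⟨e₁, e₂, _, b1, b2, b3, b4, b5⟩ := hF y hy
    rw [hxy] at a2 a3 a4 a5
    have i1 : x.2.1 = y.2.1 := by omega
    have i2 : x.2.2 = y.2.2 := by omega
    have i3 : c₁ = e₁ := by omega
    have i4 : x.1 ^ 2 = y.1 ^ 2 := by
      rw [i1, i3, ← b1] at a1
      exact Nat.add_right_cancel a1
    have i5 : x.1 = y.1 := Nat.pow_left_injective (by norm_num : 2 ≠ 0) i4
    exact Prod.ext i5 (Prod.ext i1 i2)
  have hQ : ∀ q ∈ S.image F, KD K q.1 q.2.1 q.2.2.1 q.2.2.2 ∧ q.2.1 * q.2.2.2 < Y ∧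
      q.2.1 * q.2.2.2 ≤ N ∧ q.1 * q.2.2.1 ≤ 2 * N := by
    intro q hq
    obtain ⟨t, ht, rfl⟩ := Finset.mem_image.1 hq
    obtain ⟨c₁, c₂, a0, a1, a2, a3, a4, a5⟩ := hF t ht
    obtain ⟨t1, t2, t3, t4, t5, t6, _⟩ := hS t ht
    refine ⟨a0, by omega, by omega, by omega⟩
  have hS16 : 16 * K ^ 3 ≤ 16 * N ^ 3 := Nat.mul_le_mul_left _ (Nat.pow_le_pow_left hKN 3)
  have hCN := hCON N hN
  refine card_le_of_inj S F _ hinj ?_
  have hA := fib_le (S.image F) (fun q : ℕ × ℕ × ℕ × ℕ => (q.2.1, q.2.2.2))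
    (Y * (C * (N : ℝ) ^ (ε / 3)))
    ((((16 * K ^ 3 : ℕ) : ℝ) ^ 2 * (D * (N : ℝ) ^ (ε / 3))) *
      (((16 * K ^ 3 : ℕ) : ℝ) ^ 2 * (D * (N : ℝ) ^ (ε / 3)))) ?_ (by positivity) ?_
  · refine hA.trans (le_of_eq ?_)
    have hp : (N : ℝ) ^ (ε / 3) * (N : ℝ) ^ (ε / 3) * (N : ℝ) ^ (ε / 3) = (N : ℝ) ^ ε := by
      rw [← Real.rpow_add hN0, ← Real.rpow_add hN0]
      congr 1
      ring
    rw [← hp]
    push_cast
    ring
  · refine diff_pairs hC hN (hDV N hN) _ fun p hp => ?_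
    obtain ⟨q, hq, rfl⟩ := Finset.mem_image.1 hp
    obtain ⟨⟨m0, ml, h0, _⟩, b1, b2, _⟩ := hQ q hq
    exact ⟨by show 1 ≤ q.2.1; omega, h0, b1, b2⟩
  · intro p hp
    obtain ⟨q, hq, rfl⟩ := Finset.mem_image.1 hp
    obtain ⟨⟨m0, ml, h0, _⟩, b1, b2, _⟩ := hQ q hq
    obtain ⟨l, hl⟩ : ∃ l, l = q.2.1 := ⟨_, rfl⟩
    obtain ⟨k, hk⟩ : ∃ k, k = q.2.2.2 := ⟨_, rfl⟩
    have hl1 : 1 ≤ l := by omega
    have hk1 : 1 ≤ k := by omega
    have hlN : l ≤ N := by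
      have : l * 1 ≤ l * k := Nat.mul_le_mul_left _ hk1
      rw [hl, hk] at this
      rw [hl]
      omega
    have hkN : k ≤ N := by
      have : 1 * k ≤ l * k := Nat.mul_le_mul_right _ hl1
      rw [hl, hk] at this
      rw [hk]
      omega
    show (((S.image F).filter (fun x : ℕ × ℕ × ℕ × ℕ => (x.2.1, x.2.2.2) =
      (q.2.1, q.2.2.2))).card : ℝ) ≤ _
    rw [← hl, ← hk]
    obtain ⟨Z, hZ⟩ : ∃ Z, Z = (S.image F).filter (fun x : ℕ × ℕ × ℕ × ℕ => (x.2.1, x.2.2.2) =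
      (l, k)) := ⟨_, rfl⟩
    rw [← hZ]
    have hZ' : ∀ x ∈ Z, x.2.1 = l ∧ x.2.2.2 = k ∧ x ∈ S.image F := by
      intro x hx
      rw [hZ] at hx
      obtain ⟨x1, x2⟩ := Finset.mem_filter.1 hx
      exact ⟨(Prod.mk.inj x2).1, (Prod.mk.inj x2).2, x1⟩
    have hM := diff_fib hD hN hCN (Or.inl rfl) hS16 hl1 hlN (Z.image fun x => x.1) (by
      intro y hy
      obtain ⟨x, hx, rfl⟩ := Finset.mem_image.1 hy
      obtain ⟨x1, x2, x3⟩ := hZ' x hx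
      obtain ⟨⟨y0, y1, y2, y3, y4, y5, ⟨s, P, z1, z2, z3⟩, ⟨s', Q, w1, w2, w3⟩, _⟩, _, _, y6⟩ :=
        hQ x x3
      refine ⟨?_, s, P, s', Q, z1, z2, w1, w2, ?_, ?_⟩
      · have : x.1 * 1 ≤ x.1 * x.2.2.1 := Nat.mul_le_mul_left _ (by omega)
        omega
      · rw [← z3, x1]
      · rw [one_mul]
        have w4 : x.2.1 = x.1 + s' * Q ^ 2 := by omega
        rw [x1] at w4
        rw [w4]
        push_cast
        ring)
    have hH := diff_fib hD hN hCN (Or.inr rfl) hS16 hk1 hkN (Z.image fun x => x.2.2.1) (by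
      intro y hy
      obtain ⟨x, hx, rfl⟩ := Finset.mem_image.1 hy
      obtain ⟨x1, x2, x3⟩ := hZ' x hx
      obtain ⟨⟨y0, y1, y2, y3, y4, y5, _, _, ⟨s, P, z1, z2, z3⟩, ⟨s', Q, w1, w2, w3⟩⟩, _, _, y6⟩ :=
        hQ x x3
      refine ⟨?_, s, P, s', Q, z1, z2, w1, w2, ?_, ?_⟩
      · have : 1 * x.2.2.1 ≤ x.1 * x.2.2.1 := Nat.mul_le_mul_right _ y0
        show x.2.2.1 ≤ 2 * N
        omega
      · show k + x.2.2.1 = s * P ^ 2
        rw [← z3, x2, Nat.add_comm]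
      · show (k : ℤ) - (x.2.2.1 : ℕ) = -1 * (s' * Q ^ 2)
        have w4 : x.2.2.1 = x.2.2.2 + s' * Q ^ 2 := by omega
        rw [x2] at w4
        rw [w4]
        push_cast
        ring)
    have hc1 : Z.card ≤ (Z.image fun x => x.1).card * (Z.image fun x => x.2.2.1).card := by
      rw [← Finset.card_product]
      refine Finset.card_le_card_of_injOn (fun x => (x.1, x.2.2.1)) ?_ ?_
      · intro x hx
        have hx' : x ∈ Z := hx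
        exact Finset.mem_product.2 ⟨Finset.mem_image_of_mem _ hx', Finset.mem_image_of_mem _ hx'⟩
      · intro x hx y hy hxy
        obtain ⟨x1, x2, _⟩ := hZ' x hx
        obtain ⟨y1, y2, _⟩ := hZ' y hy
        simp only [Prod.mk.injEq] at hxy
        exact Prod.ext hxy.1 (Prod.ext (x1.trans y1.symm) (Prod.ext hxy.2 (x2.trans y2.symm)))
    have hc2 : (Z.card : ℝ) ≤ ((Z.image fun x => x.1).card : ℝ) *
        ((Z.image fun x => x.2.2.1).card : ℝ) := by exact_mod_cast hc1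
    exact hc2.trans (mul_le_mul hM hH (Nat.cast_nonneg _) (by positivity))

end Pool.Agent.Helper89.TT
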